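import Pool.Agent.H84.GA.FTY
import Pool.Agent.H23.GB.TargetsA

/-!
Row ZPB of the board gb: sharp bounds for the weights.
-/

set_option autoImplicit false

namespace Pool.Agent.H84.GB

open MeasureTheory Pool.Agent.H34.GM Pool.Agent.H34.GU Pool.Agent.H34.GA Pool.Agent.H84.GA
  Pool.Agent.H23.GB
open Pool.Agent.H34.GZ hiding eu eu2 cf

/-- the sign of the determinant -/
noncomputable def sg {m : ℕ} (z : Mat m) : ℝ := z.det / |z.det|

lemma sg_abs {m : ℕ} {z : Mat m} (hz : z.det ≠ 0) : |sg z| = 1 := by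
  unfold sg
  rw [abs_div, abs_abs, div_self (abs_ne_zero.2 hz)]

lemma sg_smul {m : ℕ} {r : ℝ} (hr : 0 < r) (z : Mat m) : sg (r • z) = sg z := by
  unfold sg
  rw [Matrix.det_smul, Fintype.card_fin, abs_mul, abs_of_pos (pow_pos hr m),
    mul_div_mul_left _ _ (pow_pos hr m).ne']

lemma cof_sg {m : ℕ} {f : Mat m → ℂ} {M : ℝ} (hf : Cof m f M) (l : ℕ) :
    Cof m (fun z => ((sg z : ℝ) : ℂ) ^ l * f z) M := by
  refine ⟨?_, ?_, ?_⟩
  · refine AEStronglyMeasurable.mul ?_ hf.meas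
    have h1 : Measurable fun z : V m => (mt z).det := FD.cont_det.measurable
    have h2 : Measurable fun z : V m => sg (mt z) := h1.div (h1.norm)
    exact ((Complex.measurable_ofReal.comp h2).pow_const l).aestronglyMeasurable
  · intro r hr z hz
    simp only [sg_smul hr z, hf.scal r hr z hz]
  · intro z hz
    have h1 : ‖((sg z : ℝ) : ℂ) ^ l‖ = 1 := by
      rw [norm_pow, Complex.norm_real, Real.norm_eq_abs, sg_abs hz, one_pow]
    simp only [norm_mul, h1, one_mul]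
    exact hf.bd z hz

lemma shell_det {m : ℕ} (hm : 1 ≤ m) {z : V m} (hz : z ∈ Shell m) : (mt z).det ≠ 0 := by
  intro h2
  have h3 : aN (mt z) = 0 := by
    unfold aN
    rw [h2, abs_zero, Real.zero_rpow]
    have : (0 : ℝ) < m := by exact_mod_cast hm
    positivity
  have h4 := hz.1
  rw [h3] at h4
  linarith

lemma aN_pow {m : ℕ} (hm : 1 ≤ m) (z : Mat m) : (aN z) ^ m = |z.det| := by
  unfold aN
  rw [← Real.rpow_natCast, ← Real.rpow_mul (abs_nonneg _), one_div,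
    inv_mul_cancel₀ (by exact_mod_cast (by omega : m ≠ 0)), Real.rpow_one]

lemma det_nz {m : ℕ} (hm : 1 ≤ m) {r : ℝ} {z : Mat m} :
    ((r⁻¹ * (aN z)⁻¹) • z).det = (r⁻¹) ^ m * sg z := by
  rw [Matrix.det_smul, Fintype.card_fin, mul_pow, inv_pow (aN z), aN_pow hm]
  unfold sg
  rw [div_eq_mul_inv]
  ring

/-- the first bound -/
lemma first {m : ℕ} (hm : 1 ≤ m) (hU : T_UBD) {χ : ℝ → ℝ} (hχ : Prof χ) (K : ℕ) :
    ∃ C : ℝ, 0 < C ∧ ∀ δ : ℝ, 0 < δ → δ ≤ 1 / 2 → ∀ f : Mat m → ℂ, Cof m f 1 → ∀ r : ℝ, 0 < r →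
      ‖uu (Pool.Agent.H34.GA.cf (dD^[m] (bi m χ δ))) f r‖ ≤ C * (r / δ) ^ K := by
  obtain ⟨N, C, hC, hU⟩ := hU m hm ((m : ℝ) ^ 2 + K) (by
    have : (0 : ℝ) ≤ K := Nat.cast_nonneg _
    linarith)
  have hs := BD.b1_smooth (m := m) hχ
  have hc := BD.b1_comp (m := m) hχ
  have hdc := DE.dc_pos (BD.b1 m χ) N
  refine ⟨(2 * Real.pi) ^ (m * m) * C * DE.dc (BD.b1 m χ) N, by positivity, ?_⟩
  intro δ hδ hδ2 f hf r hr
  set G : Mat m → ℂ := fun w => Pool.Agent.H34.GA.cf (bi m χ δ) (δ⁻¹ • w) with hG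
  have hft : ∀ w : Mat m, ft (bi m χ δ) w =
      ∫ z : V m, (BD.b1 m χ) (δ⁻¹ • (z - BD.oneV m)) * FD.EE w z := by
    intro w
    unfold ft
    apply integral_congr_ae
    filter_upwards with z
    rw [BD.bi_eq χ hδ z]
    rfl
  have hGb : ∀ w, ‖G w‖ ≤ (δ ^ (m * m) * DE.dc (BD.b1 m χ) N) * (1 + sz w) ^ (-(N : ℝ)) := by
    intro w
    show ‖(starRingEnd ℂ) (ft (bi m χ δ) (δ⁻¹ • w))‖ ≤ _
    rw [RCLike.norm_conj, hft, FY.sc _ hδ, smul_smul, mul_inv_cancel₀ hδ.ne', one_smul, mul_assoc]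
    exact mul_le_mul_of_nonneg_left (DE.dec hs hc N w) (by positivity)
  have hGc : Continuous G := by
    have hbs : Continuous fun z : V m => bi m χ δ (mt z) :=
      (BD.bi_smooth (m := m) hχ hδ).continuous
    have hcs : HasCompactSupport fun z : V m => bi m χ δ (mt z) := by
      refine HasCompactSupport.intro BD.KK_comp ?_
      intro z hz
      by_contra hn
      exact hz (BD.mem_KK hχ hδ hδ2 hn)
    have h1 : Continuous fun w : Mat m => ft (bi m χ δ) w := DE.ft_cont hbs hcs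
    exact Complex.continuous_conj.comp (h1.comp (continuous_const_smul δ⁻¹))
  have hrd : 0 < r / δ := div_pos hr hδ
  have h1 := (hU (fun z => ((sg z : ℝ) : ℂ) ^ m * f z) G 1 (δ ^ (m * m) * DE.dc (BD.b1 m χ) N)
    (cof_sg hf m) zero_le_one (by positivity) hGc hGb (r / δ) hrd).2
  have hsh : MeasurableSet (Shell m) := by
    have hd : Measurable fun z : V m => aN (mt z) := by
      unfold aN
      exact (FD.cont_det.abs.measurable).pow_const _
    exact (measurableSet_le measurable_const hd).inter (measurableSet_lt hd measurable_const)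
  have h2 : uu (Pool.Agent.H34.GA.cf (dD^[m] (bi m χ δ))) f r =
      (((-(2 * Real.pi * Complex.I)) ^ m) ^ m * (((r⁻¹ ^ m) ^ m : ℝ) : ℂ)) *
        uu G (fun z => ((sg z : ℝ) : ℂ) ^ m * f z) (r / δ) := by
    unfold uu
    rw [← integral_const_mul]
    apply setIntegral_congr_fun hsh
    intro z hz
    show Pool.Agent.H34.GA.cf (dD^[m] (bi m χ δ)) ((r⁻¹ * (aN (mt z))⁻¹) • mt z) * f (mt z) = _
    have hTg : TgS m (bi m χ δ) := by
      obtain ⟨C0, -, h0⟩ := pf_BIA m χ hm hχ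
      exact (h0 δ hδ hδ2).1
    rw [cf_dDl hTg, det_nz hm]
    show _ = (((-(2 * Real.pi * Complex.I)) ^ m) ^ m * (((r⁻¹ ^ m) ^ m : ℝ) : ℂ)) *
      (Pool.Agent.H34.GA.cf (bi m χ δ) (δ⁻¹ • (((r / δ)⁻¹ * (aN (mt z))⁻¹) • mt z)) *
        (((sg (mt z) : ℝ) : ℂ) ^ m * f (mt z)))
    have h3 : δ⁻¹ • (((r / δ)⁻¹ * (aN (mt z))⁻¹) • mt z) = (r⁻¹ * (aN (mt z))⁻¹) • mt z := by
      rw [smul_smul]
      congr 1
      field_simp
    rw [h3]
    push_cast
    ring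
  rw [h2, norm_mul, norm_mul]
  have h4 : ‖((-(2 * Real.pi * Complex.I)) ^ m) ^ m‖ = (2 * Real.pi) ^ (m * m) := by
    rw [← pow_mul, norm_pow, norm_neg, norm_mul, Complex.norm_I, mul_one, norm_mul,
      Complex.norm_real, Real.norm_of_nonneg Real.pi_pos.le]
    norm_num
  have h5 : ‖(((r⁻¹ ^ m) ^ m : ℝ) : ℂ)‖ = r⁻¹ ^ (m * m) := by
    rw [Complex.norm_real, ← pow_mul, Real.norm_of_nonneg (by positivity)]
  rw [h4, h5]
  have h6 : (r / δ) ^ ((m : ℝ) ^ 2 + K) = (r / δ) ^ (m * m) * (r / δ) ^ K := by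
    have h7 : (m : ℝ) ^ 2 = ((m * m : ℕ) : ℝ) := by
      push_cast
      ring
    rw [Real.rpow_add hrd, Real.rpow_natCast, h7, Real.rpow_natCast]
  rw [h6] at h1
  calc (2 * Real.pi) ^ (m * m) * r⁻¹ ^ (m * m) *
        ‖uu G (fun z => ((sg z : ℝ) : ℂ) ^ m * f z) (r / δ)‖
      ≤ (2 * Real.pi) ^ (m * m) * r⁻¹ ^ (m * m) *
        (C * 1 * (δ ^ (m * m) * DE.dc (BD.b1 m χ) N) * ((r / δ) ^ (m * m) * (r / δ) ^ K)) :=
        mul_le_mul_of_nonneg_left h1 (by positivity)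
    _ = (2 * Real.pi) ^ (m * m) * C * DE.dc (BD.b1 m χ) N * (r / δ) ^ K *
        ((r⁻¹ * δ * (r / δ)) ^ (m * m)) := by
        rw [mul_pow, mul_pow]
        ring
    _ = (2 * Real.pi) ^ (m * m) * C * DE.dc (BD.b1 m χ) N * (r / δ) ^ K := by
        have : r⁻¹ * δ * (r / δ) = 1 := by field_simp
        rw [this, one_pow, mul_one]

/-- the second bound -/
lemma second {m : ℕ} {χ : ℝ → ℝ} (hχ : Prof χ) :
    ∃ C : ℝ, 0 < C ∧ ∀ δ : ℝ, 0 < δ → δ ≤ 1 / 2 → ∀ f : Mat m → ℂ, Cof m f 1 → ∀ t : ℝ,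
      ‖ZA (dD^[m] (bi m χ δ)) f (1 / 2 + t * Complex.I)‖ ≤ C := by
  have hsm := BS.it_sm (BS.B1_sm (m := m) hχ) m
  have hcs := BS.B1_cs (m := m) hχ m
  obtain ⟨C1, hC1⟩ := hsm.continuous.bounded_above_of_compact_support hcs
  have hC10 : 0 ≤ C1 := (norm_nonneg _).trans (hC1 0)
  obtain ⟨C2, hC2, hK⟩ := BD.KK_bd (m := m)
  obtain ⟨C3, hC3⟩ := (BD.KK_comp.image (FD.cont_det (m := m)).abs).bddAbove
  have hC3' : ∀ z ∈ BD.KK m, |(mt z).det| ≤ C3 := fun z hz => hC3 ⟨z, hz, rfl⟩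
  set C4 : ℝ := max C3 1 with hC4
  have hC4' : 0 < C4 := lt_of_lt_of_le one_pos (le_max_right _ _)
  set v : ENNReal := (volume : Measure (V m)) (Metric.ball 0 1) with hv
  have hvt : v ≠ ⊤ := measure_ball_lt_top.ne
  refine ⟨(C1 * C4 ^ ((m : ℝ) / 2)) * (C2 ^ m * v.toReal) + 1, by positivity, ?_⟩
  intro δ hδ hδ2 f hf t
  have hfun := BS.it_scale (BS.B1_sm (m := m) hχ) δ⁻¹ m
  rw [← BS.bi_fun χ hδ] at hfun
  have hnp : ‖(((δ⁻¹ : ℝ) : ℂ) ^ m) ^ m‖ = δ⁻¹ ^ (m * m) := by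
    rw [norm_pow, norm_pow, Complex.norm_real, Real.norm_of_nonneg (by positivity), pow_mul]
  have hb : ∀ z : Mat m, ‖(dD^[m] (bi m χ δ)) z‖ ≤ δ⁻¹ ^ (m * m) * C1 := by
    intro z
    rw [hfun]
    show ‖(((δ⁻¹ : ℝ) : ℂ) ^ m) ^ m * (dD^[m] (BS.B1 m χ)) (δ⁻¹ • (z - 1))‖ ≤ _
    rw [norm_mul, hnp]
    exact mul_le_mul_of_nonneg_left (hC1 _) (by positivity)
  set S : Set (V m) := BD.KK m ∩ Metric.closedBall (BD.oneV m) δ with hS
  have hScl : IsClosed S := BD.KK_comp.isClosed.inter Metric.isClosed_closedBall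
  have hsupp : ∀ z : V m, (dD^[m] (bi m χ δ)) (mt z) ≠ 0 → z ∈ S := by
    apply it_supp (Φ := bi m χ δ) m S hScl
    intro z hz
    refine ⟨BD.mem_KK hχ hδ hδ2 hz, ?_⟩
    rw [mem_closedBall_iff_norm]
    exact BD.sz_sub_le hχ hδ hz
  have hmS : hm m S ≤ ENNReal.ofReal (C2 ^ m) * (ENNReal.ofReal (δ ^ (m * m)) * v) := by
    have h1 : hm m S = ∫⁻ z in S, ENNReal.ofReal ((|(mt z).det| ^ m)⁻¹) := by
      unfold hm
      rw [withDensity_apply _ hScl.measurableSet]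
    have h2 : (volume : Measure (V m)) S ≤ ENNReal.ofReal (δ ^ (m * m)) * v := by
      refine (measure_mono Set.inter_subset_right).trans ?_
      rw [Measure.addHaar_closedBall _ _ hδ.le]
      have h3 : Module.finrank ℝ (V m) = m * m := by
        rw [Module.finrank_pi_fintype]
        simp
      rw [h3]
    rw [h1]
    calc ∫⁻ z in S, ENNReal.ofReal ((|(mt z).det| ^ m)⁻¹)
        ≤ ∫⁻ _z in S, ENNReal.ofReal (C2 ^ m) := by
          apply setLIntegral_mono' hScl.measurableSet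
          intro z hz
          apply ENNReal.ofReal_le_ofReal
          rw [← inv_pow]
          have h4 := (hK z hz.1).1
          apply pow_le_pow_left₀ (by positivity)
          rw [inv_le_comm₀ (abs_pos.2 (BD.KK_pos hz.1).ne') (by linarith)]
          exact h4
      _ = ENNReal.ofReal (C2 ^ m) * (volume : Measure (V m)) S := by
          rw [setLIntegral_const]
      _ ≤ _ := mul_le_mul_right h2 _
  have hpt : ∀ z : V m, ‖(dD^[m] (bi m χ δ)) (mt z) *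
      ((|(mt z).det| : ℝ) : ℂ) ^ ((1 / 2 + t * Complex.I : ℂ) + ((m : ℂ) - 1) / 2) * f (mt z)‖ ≤
      S.indicator (fun _ => δ⁻¹ ^ (m * m) * (C1 * C4 ^ ((m : ℝ) / 2))) z := by
    intro z
    by_cases hz : z ∈ S
    · rw [Set.indicator_of_mem hz, norm_mul, norm_mul]
      have hd : 0 < |(mt z).det| := abs_pos.2 (BD.KK_pos hz.1).ne'
      have h1 : ‖((|(mt z).det| : ℝ) : ℂ) ^ ((1 / 2 + t * Complex.I : ℂ) +
          ((m : ℂ) - 1) / 2)‖ ≤ C4 ^ ((m : ℝ) / 2) := by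
        rw [Complex.norm_cpow_eq_rpow_re_of_pos hd]
        have h2 : ((1 / 2 + t * Complex.I : ℂ) + ((m : ℂ) - 1) / 2).re = (m : ℝ) / 2 := by
          have : ((1 / 2 + t * Complex.I : ℂ) + ((m : ℂ) - 1) / 2) =
            (((m : ℝ) / 2 : ℝ) : ℂ) + ((t : ℝ) : ℂ) * Complex.I := by
            push_cast
            ring
          rw [this]
          simp
        rw [h2]
        exact Real.rpow_le_rpow hd.le ((hC3' z hz.1).trans (le_max_left _ _)) (by positivity)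
      have h3 : ‖f (mt z)‖ ≤ 1 := hf.bd _ (BD.KK_pos hz.1).ne'
      calc ‖(dD^[m] (bi m χ δ)) (mt z)‖ * ‖((|(mt z).det| : ℝ) : ℂ) ^
            ((1 / 2 + t * Complex.I : ℂ) + ((m : ℂ) - 1) / 2)‖ * ‖f (mt z)‖
          ≤ (δ⁻¹ ^ (m * m) * C1) * C4 ^ ((m : ℝ) / 2) * 1 := by
            apply mul_le_mul _ h3 (norm_nonneg _) (by positivity)
            exact mul_le_mul (hb _) h1 (norm_nonneg _) (by positivity)
        _ = _ := by ring
    · rw [Set.indicator_of_notMem hz]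
      have h1 : (dD^[m] (bi m χ δ)) (mt z) = 0 := by
        by_contra hn
        exact hz (hsupp z hn)
      rw [h1, zero_mul, zero_mul, norm_zero]
  have hint : (∫⁻ z : V m, ‖(dD^[m] (bi m χ δ)) (mt z) *
      ((|(mt z).det| : ℝ) : ℂ) ^ ((1 / 2 + t * Complex.I : ℂ) + ((m : ℂ) - 1) / 2) *
        f (mt z)‖ₑ ∂(hm m)) ≤
      ENNReal.ofReal ((C1 * C4 ^ ((m : ℝ) / 2)) * (C2 ^ m * v.toReal)) := by
    calc (∫⁻ z : V m, ‖(dD^[m] (bi m χ δ)) (mt z) *
          ((|(mt z).det| : ℝ) : ℂ) ^ ((1 / 2 + t * Complex.I : ℂ) + ((m : ℂ) - 1) / 2) *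
            f (mt z)‖ₑ ∂(hm m))
        ≤ ∫⁻ z : V m, S.indicator (fun _ => ENNReal.ofReal
            (δ⁻¹ ^ (m * m) * (C1 * C4 ^ ((m : ℝ) / 2)))) z ∂(hm m) := by
          apply lintegral_mono
          intro z
          have h1 := hpt z
          beta_reduce
          rw [← ofReal_norm]
          by_cases hz : z ∈ S
          · rw [Set.indicator_of_mem hz] at h1
            rw [Set.indicator_of_mem hz]
            exact ENNReal.ofReal_le_ofReal h1
          · rw [Set.indicator_of_notMem hz] at h1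
            rw [Set.indicator_of_notMem hz]
            rw [ENNReal.ofReal_of_nonpos h1]
      _ = ENNReal.ofReal (δ⁻¹ ^ (m * m) * (C1 * C4 ^ ((m : ℝ) / 2))) * hm m S := by
          rw [lintegral_indicator_const hScl.measurableSet]
      _ ≤ ENNReal.ofReal (δ⁻¹ ^ (m * m) * (C1 * C4 ^ ((m : ℝ) / 2))) *
          (ENNReal.ofReal (C2 ^ m) * (ENNReal.ofReal (δ ^ (m * m)) * v)) :=
          mul_le_mul_right hmS _
      _ = ENNReal.ofReal ((C1 * C4 ^ ((m : ℝ) / 2)) * (C2 ^ m * v.toReal)) := by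
          rw [← ENNReal.ofReal_toReal hvt, ← ENNReal.ofReal_mul (by positivity),
            ← ENNReal.ofReal_mul (by positivity), ← ENNReal.ofReal_mul (by positivity)]
          congr 1
          rw [ENNReal.toReal_ofReal ENNReal.toReal_nonneg]
          have : δ⁻¹ ^ (m * m) * δ ^ (m * m) = 1 := by
            rw [← mul_pow, inv_mul_cancel₀ hδ.ne', one_pow]
          calc _ = (δ⁻¹ ^ (m * m) * δ ^ (m * m)) *
                ((C1 * C4 ^ ((m : ℝ) / 2)) * (C2 ^ m * v.toReal)) := by ring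
            _ = _ := by rw [this, one_mul]
  have hfin : ‖ZA (dD^[m] (bi m χ δ)) f (1 / 2 + t * Complex.I)‖ₑ ≤
      ENNReal.ofReal ((C1 * C4 ^ ((m : ℝ) / 2)) * (C2 ^ m * v.toReal)) := by
    unfold ZA
    exact (enorm_integral_le_lintegral_enorm _).trans hint
  have h9 : 0 ≤ (C1 * C4 ^ ((m : ℝ) / 2)) * (C2 ^ m * v.toReal) := by positivity
  rw [← ofReal_norm, ENNReal.ofReal_le_ofReal_iff h9] at hfin
  linarith

/-- the support -/
lemma third {m : ℕ} (hm : 1 ≤ m) {χ : ℝ → ℝ} (hχ : Prof χ) :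
    ∃ C : ℝ, 1 ≤ C ∧ ∀ δ : ℝ, 0 < δ → δ ≤ 1 / 2 → ∀ (f : Mat m → ℂ) (r : ℝ), 0 < r →
      uu (dD^[m] (bi m χ δ)) f r ≠ 0 → C⁻¹ ≤ r ∧ r ≤ C := by
  obtain ⟨C2, hC2, hK⟩ := BD.KK_bd (m := m)
  obtain ⟨C3, hC3⟩ := (BD.KK_comp.image (FD.cont_det (m := m)).abs).bddAbove
  have hC3' : ∀ z ∈ BD.KK m, |(mt z).det| ≤ C3 := fun z hz => hC3 ⟨z, hz, rfl⟩
  refine ⟨max C2 C3, hC2.trans (le_max_left _ _), ?_⟩
  intro δ hδ hδ2 f r hr h0
  have hex : ∃ z ∈ Shell m, (dD^[m] (bi m χ δ)) ((r⁻¹ * (aN (mt z))⁻¹) • mt z) ≠ 0 := by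
    by_contra hn
    push Not at hn
    apply h0
    unfold uu
    apply setIntegral_eq_zero_of_forall_eq_zero
    intro z hz
    rw [hn z hz, zero_mul]
  obtain ⟨z, hz, hne⟩ := hex
  have hsupp : ∀ z : V m, (dD^[m] (bi m χ δ)) (mt z) ≠ 0 → z ∈ BD.KK m := by
    apply it_supp (Φ := bi m χ δ) m (BD.KK m) BD.KK_comp.isClosed
    intro z hz
    exact BD.mem_KK hχ hδ hδ2 hz
  have hw : (((r⁻¹ * (aN (mt z))⁻¹) • mt z : Mat m) : V m) ∈ BD.KK m := hsupp _ hne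
  have hdet : |((r⁻¹ * (aN (mt z))⁻¹) • mt z : Mat m).det| = r⁻¹ ^ m := by
    rw [det_nz hm, abs_mul, sg_abs (shell_det hm hz), mul_one, abs_of_pos (by positivity)]
  have h1 : C2⁻¹ ≤ r⁻¹ ^ m := by
    have := (hK _ hw).1
    have h2 : |(mt (((r⁻¹ * (aN (mt z))⁻¹) • mt z : Mat m) : V m)).det| = r⁻¹ ^ m := hdet
    rw [h2] at this
    exact this
  have h2 : r⁻¹ ^ m ≤ C3 := by
    have := hC3' _ hw
    have h2 : |(mt (((r⁻¹ * (aN (mt z))⁻¹) • mt z : Mat m) : V m)).det| = r⁻¹ ^ m := hdet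
    rw [h2] at this
    exact this
  rw [inv_pow] at h1 h2
  have hrm : 0 < r ^ m := by positivity
  have h3 : r ^ m ≤ C2 := by
    rwa [inv_le_inv₀ (by linarith) hrm] at h1
  have hC30 : 0 < C3 := lt_of_lt_of_le (inv_pos.2 hrm) h2
  have h4 : C3⁻¹ ≤ r ^ m := by
    rw [inv_le_comm₀ hC30 hrm]
    exact h2
  constructor
  · by_cases hr1 : r ≤ 1
    · have h5 : r ^ m ≤ r := by
        have := pow_le_pow_of_le_one hr.le hr1 hm
        rwa [pow_one] at this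
      exact (inv_anti₀ hC30 (le_max_right _ _)).trans (h4.trans h5)
    · push Not at hr1
      have h5 : (max C2 C3)⁻¹ ≤ 1 := inv_le_one_of_one_le₀ (hC2.trans (le_max_left _ _))
      linarith
  · by_cases hr1 : 1 ≤ r
    · have h5 : r ≤ r ^ m := by
        have := pow_le_pow_right₀ hr1 hm
        rwa [pow_one] at this
      exact (h5.trans h3).trans (le_max_left _ _)
    · push Not at hr1
      have h5 : 1 ≤ max C2 C3 := hC2.trans (le_max_left _ _)
      linarith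

theorem pf_ZPB : T_UBD → T_ZPB := by
  intro hU m χ K hm hχ
  obtain ⟨Ca, hCa, ha⟩ := first hm hU hχ 0
  obtain ⟨Cb, hCb, hb⟩ := first hm hU hχ K
  obtain ⟨Cc, hCc, hc⟩ := second (m := m) hχ
  obtain ⟨Cd, hCd, hd⟩ := third hm hχ
  refine ⟨max (max Ca Cb) (max Cc Cd), hCd.trans ((le_max_right _ _).trans (le_max_right _ _)), ?_⟩
  intro δ hδ hδ2 f hf
  refine ⟨?_, ?_, ?_⟩
  · intro r hr
    have h1 := ha δ hδ hδ2 f hf r hr
    have h2 := hb δ hδ hδ2 f hf r hr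
    rw [pow_zero, mul_one] at h1
    have h3 : 0 ≤ (r / δ) ^ K := by positivity
    have h4 : 0 ≤ max (max Ca Cb) (max Cc Cd) :=
      hCa.le.trans ((le_max_left _ _).trans (le_max_left _ _))
    rw [mul_min_of_nonneg _ _ h4, mul_one]
    refine le_min (h1.trans ((le_max_left _ _).trans (le_max_left _ _))) (h2.trans ?_)
    exact mul_le_mul_of_nonneg_right ((le_max_right _ _).trans (le_max_left _ _)) h3
  · intro t
    exact (hc δ hδ hδ2 f hf t).trans ((le_max_left _ _).trans (le_max_right _ _))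
  · intro r hr h0
    have h1 := hd δ hδ hδ2 f r hr h0
    have h2 : Cd ≤ max (max Ca Cb) (max Cc Cd) := (le_max_right _ _).trans (le_max_right _ _)
    exact ⟨(inv_anti₀ (by linarith) h2).trans h1.1, h1.2.trans h2⟩

end Pool.Agent.H84.GB
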